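import Pool.Agent.Helper639.NE
import Pool.Agent.Helper639.ForceCH

open Cardinal

namespace Pool.Agent.Results.MP_9ea9ae_an.ConsistentCounterexample

open Pool.Agent.Helper639.N
open Pool.Agent.Helper639.ForceCH (OmegaOnePreserved CHHolds)

/-- Some forcing notion forces that `ω₁` is preserved and CH holds, and CH implies that there are
a Corson compact space `L` and a compact Hausdorff space `K` which is not Corson compact such that
the Banach spaces `C(K)` and `C(L)` are isomorphic. -/
theorem result :
    (∃ (P : Type) (_ : Preorder P), Nonempty P ∧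
      ∀ p : P, p ∈ OmegaOnePreserved P ∧ p ∈ CHHolds P) ∧
    ((Cardinal.aleph 1 : Cardinal.{0}) = Cardinal.continuum →
      ∃ (K L : Type) (_ : TopologicalSpace K) (_ : CompactSpace K) (_ : T2Space K)
        (_ : TopologicalSpace L) (_ : CompactSpace L) (_ : T2Space L),
        IsCorson L ∧ ¬ IsCorson K ∧ Nonempty (C(K, ℝ) ≃L[ℝ] C(L, ℝ))) := by
  refine ⟨?_, ?_⟩
  · obtain ⟨P, i, hn, h⟩ := Pool.Agent.Helper639.ForceCH.exists_forcing
    exact ⟨P, i, hn, fun p => ⟨(h p).1, (h p).2.2⟩⟩
  · intro CH
    obtain ⟨j, hj⟩ := exists_family CH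
    exact ⟨KK j, (LL j) ⊕ OnePoint V, inferInstance, inferInstance, inferInstance, inferInstance,
      inferInstance, inferInstance, corson_L j hj, not_corson_K j hj, iso j⟩

end Pool.Agent.Results.MP_9ea9ae_an.ConsistentCounterexample
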